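import Pool.Agent.H94.AC.Targets

open MeasureTheory Set Filter Topology Metric
open scoped ENNReal NNReal ContDiff RealInnerProductSpace

namespace Pool.Agent.H35.ICA

open Pool.Agent.H94.IC Pool.Agent.H94.AC

theorem gr_comb {φ ψ : E → ℝ} {x : E} (a b : ℝ) (hφ : DifferentiableAt ℝ φ x)
    (hψ : DifferentiableAt ℝ ψ x) :
    gr (fun x => a * φ x + b * ψ x) x = a • gr φ x + b • gr ψ x := by
  have h1 : fderiv ℝ (fun x => a * φ x + b * ψ x) x = a • fderiv ℝ φ x + b • fderiv ℝ ψ x := by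
    rw [fderiv_fun_add (hφ.const_mul a) (hψ.const_mul b), fderiv_const_mul hφ, fderiv_const_mul hψ]
  simp only [gr, gradient, h1, map_add, map_smul]

theorem diff_of {Ω S : Set E} (hΩ : IsOpen Ω) (hS : IsClosed S) {φ : E → ℝ}
    (h : ContDiffOn ℝ ∞ φ (Ω \ S)) {x : E} (hx : x ∈ Ω) (hxS : x ∉ S) : DifferentiableAt ℝ φ x :=
  ((h.contDiffAt ((hΩ.sdiff hS).mem_nhds ⟨hx, hxS⟩)).differentiableAt (by simp))

theorem ae_off {Ω S : Set E} (hS0 : volume S = 0) (K : Set E) (hK : MeasurableSet K) (hKΩ : K ⊆ Ω) :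
    ∀ᵐ x ∂(volume.restrict K), x ∈ Ω ∧ x ∉ S := by
  have h1 : ∀ᵐ x ∂(volume.restrict K), x ∈ K := ae_restrict_mem hK
  have h2 : ∀ᵐ x ∂(volume : Measure E), x ∉ S := measure_eq_zero_iff_ae_notMem.1 hS0
  filter_upwards [h1, ae_restrict_of_ae h2] with x hx hx2
  exact ⟨hKΩ hx, hx2⟩

theorem tk_comb {Ω S K : Set E} (hΩ : IsOpen Ω) (hS : IsClosed S) (hS0 : volume S = 0)
    {φ ψ : E → ℝ} (a b : ℝ) (hφ : TK Ω S K φ) (hψ : TK Ω S K ψ) :
    TK Ω S K (fun x => a * φ x + b * ψ x) := by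
  refine ⟨?_, ?_, ?_, ?_⟩
  · exact (contDiffOn_const.mul hφ.sm).add (contDiffOn_const.mul hψ.sm)
  · exact (hφ.l2.const_mul a).add (hψ.l2.const_mul b)
  · have h1 : MemLp (fun x => a • gr φ x + b • gr ψ x) 2 (volume.restrict Ω) :=
      (hφ.g2.const_smul a).add (hψ.g2.const_smul b)
    refine (memLp_congr_ae ?_).2 h1
    filter_upwards [ae_off hS0 Ω hΩ.measurableSet Subset.rfl] with x hx
    exact gr_comb a b (diff_of hΩ hS hφ.sm hx.1 hx.2) (diff_of hΩ hS hψ.sm hx.1 hx.2)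
  · intro x hx
    simp [hφ.out x hx, hψ.out x hx]

theorem tk_zero {Ω S K : Set E} : TK Ω S K (0 : E → ℝ) := by
  have hg : gr (0 : E → ℝ) = 0 := by
    funext x
    simp [gr, gradient]
  refine ⟨contDiffOn_const, MemLp.zero, ?_, fun x _ => rfl⟩
  rw [hg]
  exact MemLp.zero

/-- test functions as a space -/
def VV (Ω S K : Set E) (hΩ : IsOpen Ω) (hS : IsClosed S) (hS0 : volume S = 0) :
    Submodule ℝ (E → ℝ) where
  carrier := {φ | TK Ω S K φ}
  add_mem' := by
    intro φ ψ hφ hψ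
    have := tk_comb hΩ hS hS0 1 1 hφ hψ
    simpa [Pi.add_def] using this
  zero_mem' := tk_zero
  smul_mem' := by
    intro c φ hφ
    have := tk_comb hΩ hS hS0 c 0 hφ hφ
    simpa [Pi.smul_def] using this

theorem memLp_mu {K : Set E} (hK : MeasurableSet K) {g : E → E}
    (hg : MemLp g 2 (volume.restrict K)) : MemLp (fun x : K => g x) 2 (mu K) := by
  have h1 := map_comap_subtype_coe hK (volume : Measure E)
  have : Measure.map (Subtype.val : K → E) (mu K) = volume.restrict K := h1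
  rw [← this, (MeasurableEmbedding.subtype_coe hK).memLp_map_measure_iff] at hg
  exact hg

theorem ae_mu {K : Set E} (hK : MeasurableSet K) {p : E → Prop}
    (hp : ∀ᵐ x ∂(volume.restrict K), p x) : ∀ᵐ x : K ∂(mu K), p x := by
  have h1 := map_comap_subtype_coe hK (volume : Measure E)
  have h2 : Measure.map (Subtype.val : K → E) (mu K) = volume.restrict K := h1
  rw [← h2] at hp
  exact (MeasurableEmbedding.subtype_coe hK).ae_map_iff.1 hp

theorem atr (h1 : T_ABS) (h2 : T_MUO) : T_ATR := by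
  intro Ω S K _ J Γ f L C hΩ hS hS0 hKΩ hJ h0J hΓ hΓ1 hLlin hLb hfs hfm hft hfw
  have hKc : IsCompact K := isCompact_iff_compactSpace.2 inferInstance
  have hKm : MeasurableSet K := hKc.measurableSet
  obtain ⟨Θ, hΘ, hΘn⟩ := h2 K
  have hΘ1 : Θ 1 = 1 := by
    ext1 u
    refine Lp.ext ?_
    filter_upwards [hΘ 1 u] with x hx
    rw [hx]
    rfl
  -- class map
  have hmem : ∀ φ : VV Ω S K hΩ hS hS0, MemLp (fun x : K => gr φ.1 x) 2 (mu K) := fun φ =>
    memLp_mu hKm (φ.2.g2.mono_measure (Measure.restrict_mono hKΩ le_rfl))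
  have hdiff : ∀ φ : E → ℝ, ContDiffOn ℝ ∞ φ (Ω \ S) → ∀ᵐ x : K ∂(mu K), DifferentiableAt ℝ φ x := by
    intro φ hφ
    refine ae_mu hKm ?_
    filter_upwards [ae_off hS0 K hKm hKΩ] with x hx
    exact diff_of hΩ hS hφ hx.1 hx.2
  let G : VV Ω S K hΩ hS hS0 →ₗ[ℝ] Lp E 2 (mu K) :=
    { toFun := fun φ => (hmem φ).toLp _
      map_add' := by
        intro φ ψ
        rw [← MemLp.toLp_add]
        refine MemLp.toLp_congr _ _ ?_
        filter_upwards [hdiff _ φ.2.sm, hdiff _ ψ.2.sm] with x hx hy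
        have := gr_comb 1 1 hx hy
        simp only [one_mul, one_smul] at this
        exact this
      map_smul' := by
        intro c φ
        simp only [RingHom.id_apply]
        rw [← MemLp.toLp_const_smul]
        refine MemLp.toLp_congr _ _ ?_
        filter_upwards [hdiff _ φ.2.sm] with x hx
        have := gr_comb c 0 hx hx
        simp only [zero_mul, add_zero, zero_smul] at this
        exact this }
  have hGae : ∀ φ, (G φ : K → E) =ᵐ[mu K] fun x => gr φ.1 x := fun φ => (hmem φ).coeFn_toLp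
  have hGn : ∀ φ, ‖G φ‖ = Real.sqrt (∫ x in K, ‖gr φ.1 x‖ ^ 2) := by
    intro φ
    have e1 : ‖G φ‖ ^ 2 = ∫ x in K, ‖gr φ.1 x‖ ^ 2 := by
      rw [← real_inner_self_eq_norm_sq, L2.inner_def]
      have e2 : ∫ x : K, ⟪(G φ : K → E) x, (G φ : K → E) x⟫ ∂(mu K) =
          ∫ x : K, ‖gr φ.1 x‖ ^ 2 ∂(mu K) := by
        refine integral_congr_ae ?_
        filter_upwards [hGae φ] with x hx
        rw [hx, real_inner_self_eq_norm_sq]
      rw [e2]
      exact integral_subtype_comap hKm (fun x => ‖gr φ.1 x‖ ^ 2)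
    rw [← e1, Real.sqrt_sq (norm_nonneg _)]
  let L0 : VV Ω S K hΩ hS hS0 →ₗ[ℝ] ℝ :=
    { toFun := fun φ => L φ.1
      map_add' := by
        intro φ ψ
        have := hLlin φ.1 ψ.1 1 1 φ.2 ψ.2
        simp only [one_mul] at this
        exact this
      map_smul' := by
        intro c φ
        have := hLlin φ.1 φ.1 c 0 φ.2 φ.2
        simp only [zero_mul, add_zero] at this
        exact this }
  have hL0 : ∀ φ, |L0 φ| ≤ C * ‖G φ‖ := by
    intro φ
    rw [hGn]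
    exact hLb φ.1 φ.2
  obtain ⟨s, hs⟩ := G.rangeRestrict.exists_rightInverse_of_surjective (LinearMap.range_rangeRestrict G)
  have hs' : ∀ w : LinearMap.range G, G (s w) = w := by
    intro w
    have := LinearMap.congr_fun hs w
    have h3 := congrArg Subtype.val this
    exact h3
  let l1 : LinearMap.range G →ₗ[ℝ] ℝ := L0.comp s
  let l1c : StrongDual ℝ (LinearMap.range G) := l1.mkContinuous C (by
    intro w
    have := hL0 (s w)
    rw [hs' w] at this
    exact this)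
  obtain ⟨l, hl, -⟩ := exists_extension_norm_eq (LinearMap.range G) l1c
  have hlG : ∀ φ, l (G φ) = L0 φ := by
    intro φ
    have e1 := hl ⟨G φ, ⟨φ, rfl⟩⟩
    have e2 : l1c ⟨G φ, ⟨φ, rfl⟩⟩ = L0 (s ⟨G φ, ⟨φ, rfl⟩⟩) := rfl
    rw [e2] at e1
    have e3 : G (s ⟨G φ, ⟨φ, rfl⟩⟩ - φ) = 0 := by
      rw [map_sub, hs', sub_self]
    have e4 := hL0 (s ⟨G φ, ⟨φ, rfl⟩⟩ - φ)
    rw [e3, norm_zero, mul_zero, map_sub] at e4
    have e5 := abs_nonpos_iff.1 e4
    rw [show l (G φ) = L0 (s ⟨G φ, ⟨φ, rfl⟩⟩) from e1]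
    linarith
  -- the solutions
  classical
  let Fs : ℝ → Lp E 2 (mu K) := fun t =>
    if ht : t ∈ J then (memLp_mu hKm (hfm t ht)).toLp _ else 0
  have hFs : ∀ t ∈ J, (Fs t : K → E) =ᵐ[mu K] fun x => gr (f t) x := by
    intro t ht
    simp only [Fs, ht, dif_pos]
    exact (memLp_mu hKm (hfm t ht)).coeFn_toLp
  have hFd : ∀ t (ht : t ∈ J), Fs t - Fs 0 = G ⟨fun x => f t x - f 0 x, hft t ht⟩ := by
    intro t ht
    refine Lp.ext ?_
    filter_upwards [Lp.coeFn_sub (Fs t) (Fs 0), hFs t ht, hFs 0 h0J,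
      hGae ⟨fun x => f t x - f 0 x, hft t ht⟩, hdiff _ (hfs t ht), hdiff _ (hfs 0 h0J)] with
      x e1 e2 e3 e4 e5 e6
    rw [e1, e4, Pi.sub_apply, e2, e3]
    have := gr_comb 1 (-1) e5 e6
    simp only [one_mul, one_smul, neg_mul, neg_smul, ← sub_eq_add_neg] at this
    exact this.symm
  have hA : AnalyticOnNhd ℝ Fs J := by
    refine h1 (Lp E 2 (mu K)) (LinearMap.range G) J (fun t => Θ (Γ t)) Fs hJ h0J ?_ ?_ ?_ ?_
    · exact (Θ.analyticOnNhd univ).comp hΓ (fun _ _ => mem_univ _)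
    · intro t ht
      have : Θ (Γ t) - 1 = Θ (Γ t - 1) := by rw [map_sub, hΘ1]
      rw [this]
      exact (hΘn _).trans (hΓ1 t ht)
    · intro t ht
      exact ⟨_, (hFd t ht).symm⟩
    · rintro t ht w ⟨φ, rfl⟩
      rw [L2.inner_def]
      rw [← hfw t ht φ.1 φ.2]
      refine integral_congr_ae ?_
      filter_upwards [hΘ (Γ t) (Fs t), hFs t ht, hGae φ] with x e1 e2 e3
      rw [e1, e2, e3]
  have hB : AnalyticOnNhd ℝ (fun t => l (Fs t - Fs 0)) J :=
    (l.analyticOnNhd univ).comp (hA.sub analyticOnNhd_const) (fun _ _ => mem_univ _)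
  refine hB.congr hJ ?_
  intro t ht
  show l (Fs t - Fs 0) = L (fun x => f t x - f 0 x)
  rw [hFd t ht, hlG]
  rfl

end Pool.Agent.H35.ICA
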