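import Pool.Agent.H94.AC.Targets

open MeasureTheory Set Filter Topology Metric
open scoped ENNReal NNReal ContDiff RealInnerProductSpace

namespace Pool.Agent.H35.ICA.D

open Pool.Agent.H94.IC Pool.Agent.H94.AC

abbrev EE := E →L[ℝ] E

theorem det_analytic (A0 : EE) : AnalyticAt ℝ (fun A : EE => A.det) A0 := by
  let b := (EuclideanSpace.basisFun (Fin 3) ℝ).toBasis
  let ℓ : Fin 3 → Fin 3 → (EE →L[ℝ] ℝ) := fun i j =>
    (LinearMap.toContinuousLinearMap (b.coord i)).comp (ContinuousLinearMap.apply ℝ E (b j))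
  have h1 : (fun A : EE => A.det) = fun A : EE => ∑ σ : Equiv.Perm (Fin 3),
      ((Equiv.Perm.sign σ : ℤ) : ℝ) * ∏ i, ℓ (σ i) i A := by
    funext A
    have : A.det = LinearMap.det (A : E →ₗ[ℝ] E) := rfl
    rw [this, ← LinearMap.det_toMatrix b, Matrix.det_apply']
    refine Finset.sum_congr rfl fun σ _ => ?_
    congr 1
    refine Finset.prod_congr rfl fun i _ => ?_
    rw [LinearMap.toMatrix_apply]
    rfl
  rw [h1]
  refine Finset.analyticAt_fun_sum _ fun σ _ => ?_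
  refine analyticAt_const.mul ?_
  exact Finset.analyticAt_fun_prod _ fun i _ => (ℓ (σ i) i).analyticAt _

theorem mulA {X : Type} [TopologicalSpace X] [CompactSpace X] {f g : E → C(X, EE)} {x : E} (hf : AnalyticAt ℝ f x)
    (hg : AnalyticAt ℝ g x) : AnalyticAt ℝ (fun l => f l * g l) x :=
  @AnalyticAt.fun_mul ℝ _ E _ _ C(X, EE) _ _ f g x hf hg

theorem invA {X : Type} [TopologicalSpace X] [CompactSpace X] {f : E → C(X, EE)} {x : E} (hf : AnalyticAt ℝ f x)
    (h1 : f x = 1) : AnalyticAt ℝ (fun l => Ring.inverse (f l)) x := by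
  have h4 := analyticAt_inverse (𝕜 := ℝ) (A := C(X, EE)) 1
  have h5 : AnalyticAt ℝ (Ring.inverse : C(X, EE) → C(X, EE)) (f x) := by
    rw [h1]
    exact h4
  exact AnalyticAt.fun_comp (g := Ring.inverse) (f := f) h5 hf

theorem unitA {X : Type} [TopologicalSpace X] [CompactSpace X] {f : E → C(X, EE)} {x : E} (hf : ContinuousAt f x)
    (h1 : f x = 1) : ∀ᶠ l in 𝓝 x, f l * Ring.inverse (f l) = 1 := by
  have h4 : {f : C(X, EE) | IsUnit f} ∈ 𝓝 (f x) := by
    rw [h1]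
    exact (Units.isOpen (R := C(X, EE))).mem_nhds isUnit_one
  have h5 : ∀ᶠ l in 𝓝 x, IsUnit (f l) := hf h4
  filter_upwards [h5] with l hl
  exact Ring.mul_inverse_cancel (M₀ := C(X, EE)) (f l) hl

theorem normA {X : Type} [TopologicalSpace X] [CompactSpace X] {f : E → C(X, EE)} {x : E} (hf : ContinuousAt f x)
    (h1 : f x = 1) : ∀ᶠ l in 𝓝 x, ‖f l - 1‖ ≤ 1 / 2 := by
  have h2 : Metric.ball (1 : C(X, EE)) (1 / 2) ∈ 𝓝 (f x) := by
    rw [h1]
    exact Metric.ball_mem_nhds (1 : C(X, EE)) (by norm_num)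
  have h5 : ∀ᶠ l in 𝓝 x, f l ∈ Metric.ball (1 : C(X, EE)) (1 / 2) := hf h2
  filter_upwards [h5] with l hl
  have h6 : dist (f l) 1 = ‖f l - 1‖ := dist_eq_norm (E := C(X, EE)) (f l) 1
  rw [Metric.mem_ball, h6] at hl
  exact le_of_lt hl

theorem compA {X : Type} [TopologicalSpace X] [CompactSpace X] {V : Type} [NormedAddCommGroup V]
    [NormedSpace ℝ V] (L : V →L[ℝ] C(X, EE)) {f : E → V} {x : E} (hf : AnalyticAt ℝ f x) :
    AnalyticAt ℝ (fun l => L (f l)) x := by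
  have h5 := ContinuousLinearMap.analyticAt (𝕜 := ℝ) (E := V) (F := C(X, EE)) L (f x)
  exact AnalyticAt.fun_comp (g := L) (f := f) h5 hf

theorem compR {X : Type} [TopologicalSpace X] [CompactSpace X] (L : C(X, ℝ) →L[ℝ] C(X, EE))
    {f : E → C(X, ℝ)} {x : E} (hf : AnalyticAt ℝ f x) :
    AnalyticAt ℝ (fun l => L (f l)) x := by
  have h5 := ContinuousLinearMap.analyticAt (𝕜 := ℝ) (E := C(X, ℝ)) (F := C(X, EE)) L (f x)
  exact AnalyticAt.fun_comp (g := L) (f := f) h5 hf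

theorem compE {X : Type} [TopologicalSpace X] [CompactSpace X] (L : C(X, EE) →L[ℝ] C(X, EE))
    {f : E → C(X, EE)} {x : E} (hf : AnalyticAt ℝ f x) :
    AnalyticAt ℝ (fun l => L (f l)) x := by
  have h5 := ContinuousLinearMap.analyticAt (𝕜 := ℝ) (E := C(X, EE)) (F := C(X, EE)) L (f x)
  exact AnalyticAt.fun_comp (g := L) (f := f) h5 hf

/-- the adjoint as a real linear map -/
noncomputable def adjL : EE →L[ℝ] EE :=
  LinearMap.mkContinuous
    { toFun := fun A => ContinuousLinearMap.adjoint A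
      map_add' := fun A B => map_add _ A B
      map_smul' := fun c A => by simp } 1 (fun A => by simp)

theorem adjL_apply (A : EE) : adjL A = ContinuousLinearMap.adjoint A := rfl

theorem det_one_add (φ : E →L[ℝ] ℝ) (v : E) : (1 + φ.smulRight v : EE).det = 1 + φ v := by
  have h := LinearMap.transvection.det (φ : Module.Dual ℝ E) v
  have h2 : ((1 + φ.smulRight v : EE) : E →ₗ[ℝ] E) = LinearMap.transvection (φ : Module.Dual ℝ E) v := by
    ext1 x
    simp [LinearMap.transvection.apply]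
  show LinearMap.det ((1 + φ.smulRight v : EE) : E →ₗ[ℝ] E) = _
  rw [h2]
  exact h

theorem det_mul (A B : EE) : (A * B).det = A.det * B.det := by
  show LinearMap.det ((A * B : EE) : E →ₗ[ℝ] E) = LinearMap.det (A : E →ₗ[ℝ] E) * LinearMap.det (B : E →ₗ[ℝ] E)
  rw [← LinearMap.det_comp]
  rfl

theorem sm3 (a b c : ℝ) (P : EE) :
    (a • (1 : EE)) * (b • (1 : EE)) * (c • (1 : EE)) * P = (a * b * c) • P := by
  ext1 v
  show a • (b • (c • (P v))) = (a * b * c) • P v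
  rw [smul_smul, smul_smul, mul_assoc]

/-- the algebraic identity -/
theorem ident {D Di : EE} (h : D * Di = 1) (c : ℝ) (a b : E) :
    ⟪(c • (Di * adjL Di)) (ContinuousLinearMap.adjoint D a), ContinuousLinearMap.adjoint D b⟫
      = c * ⟪a, b⟫ := by
  have h1 : adjL Di (ContinuousLinearMap.adjoint D a) = a := by
    rw [adjL_apply]
    have h2 : ContinuousLinearMap.adjoint Di ∘L ContinuousLinearMap.adjoint D =
        ContinuousLinearMap.adjoint (D ∘L Di) := (ContinuousLinearMap.adjoint_comp D Di).symm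
    have h3 : D ∘L Di = ContinuousLinearMap.id ℝ E := h
    rw [h3] at h2
    have h4 := congrArg (fun A : EE => A a) h2
    simp only [ContinuousLinearMap.comp_apply] at h4
    rw [h4]
    have h5 : ContinuousLinearMap.adjoint (ContinuousLinearMap.id ℝ E) = ContinuousLinearMap.id ℝ E :=
      ContinuousLinearMap.adjoint_id
    rw [h5]
    rfl
  rw [ContinuousLinearMap.smul_apply, inner_smul_left, ContinuousLinearMap.mul_apply, h1,
    ContinuousLinearMap.adjoint_inner_right]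
  have h6 : D (Di a) = a := by
    have := congrArg (fun A : EE => A a) h
    exact this
  rw [h6]
  simp

section

variable (Ψ : OpenPartialHomeomorph E E)

theorem inv1 (h1 : ContDiffOn ℝ ω Ψ Ψ.source) (h2 : ContDiffOn ℝ ω Ψ.symm Ψ.target) {z : E}
    (hz : z ∈ Ψ.target) :
    fderiv ℝ Ψ (Ψ.symm z) * fderiv ℝ Ψ.symm z = (1 : EE) ∧
    fderiv ℝ Ψ.symm z * fderiv ℝ Ψ (Ψ.symm z) = (1 : EE) := by
  have hx : Ψ.symm z ∈ Ψ.source := Ψ.map_target hz
  have d1 : DifferentiableAt ℝ Ψ (Ψ.symm z) :=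
    (h1.contDiffAt (Ψ.open_source.mem_nhds hx)).differentiableAt (by simp)
  have d2 : DifferentiableAt ℝ Ψ.symm z :=
    (h2.contDiffAt (Ψ.open_target.mem_nhds hz)).differentiableAt (by simp)
  constructor
  · have e1 : HasFDerivAt (Ψ ∘ Ψ.symm) ((fderiv ℝ Ψ (Ψ.symm z)).comp (fderiv ℝ Ψ.symm z)) z :=
      d1.hasFDerivAt.comp z d2.hasFDerivAt
    have e2 : HasFDerivAt (Ψ ∘ Ψ.symm) (ContinuousLinearMap.id ℝ E) z := by
      refine (hasFDerivAt_id z).congr_of_eventuallyEq ?_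
      filter_upwards [Ψ.open_target.mem_nhds hz] with w hw
      exact Ψ.right_inv hw
    exact e1.unique e2
  · have hzz : Ψ (Ψ.symm z) = z := Ψ.right_inv hz
    have d2' : DifferentiableAt ℝ Ψ.symm (Ψ (Ψ.symm z)) := by rw [hzz]; exact d2
    have e1 : HasFDerivAt (Ψ.symm ∘ Ψ) ((fderiv ℝ Ψ.symm (Ψ (Ψ.symm z))).comp
        (fderiv ℝ Ψ (Ψ.symm z))) (Ψ.symm z) := d2'.hasFDerivAt.comp _ d1.hasFDerivAt
    have e2 : HasFDerivAt (Ψ.symm ∘ Ψ) (ContinuousLinearMap.id ℝ E) (Ψ.symm z) := by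
      refine (hasFDerivAt_id _).congr_of_eventuallyEq ?_
      filter_upwards [Ψ.open_source.mem_nhds hx] with w hw
      exact Ψ.left_inv hw
    have e3 := e1.unique e2
    rw [hzz] at e3
    exact e3

theorem fderiv_defo (h1 : ContDiffOn ℝ ω Ψ Ψ.source) (h2 : ContDiffOn ℝ ω Ψ.symm Ψ.target)
    {χ : E → ℝ} (hχ : ContDiff ℝ ∞ χ) {x l : E} (hx : x ∈ Ψ.source)
    (hc : Ψ x + χ (Ψ x) • l ∈ Ψ.target) :
    fderiv ℝ (defo Ψ χ l) x = fderiv ℝ Ψ.symm (Ψ x + χ (Ψ x) • l) *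
      (1 + (fderiv ℝ χ (Ψ x)).smulRight l) * fderiv ℝ Ψ x := by
  have d1 : DifferentiableAt ℝ Ψ x :=
    (h1.contDiffAt (Ψ.open_source.mem_nhds hx)).differentiableAt (by simp)
  have d2 : DifferentiableAt ℝ Ψ.symm (Ψ x + χ (Ψ x) • l) :=
    (h2.contDiffAt (Ψ.open_target.mem_nhds hc)).differentiableAt (by simp)
  have d3 : DifferentiableAt ℝ χ (Ψ x) := hχ.differentiable (by simp) _
  have e1 : HasFDerivAt (fun x => Ψ x + χ (Ψ x) • l) (fderiv ℝ Ψ x +
      ((fderiv ℝ χ (Ψ x)).comp (fderiv ℝ Ψ x)).smulRight l) x :=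
    d1.hasFDerivAt.add ((d3.hasFDerivAt.comp x d1.hasFDerivAt).smul_const l)
  have e2 : HasFDerivAt (fun x => Ψ.symm (Ψ x + χ (Ψ x) • l))
      ((fderiv ℝ Ψ.symm (Ψ x + χ (Ψ x) • l)).comp (fderiv ℝ Ψ x +
      ((fderiv ℝ χ (Ψ x)).comp (fderiv ℝ Ψ x)).smulRight l)) x :=
    HasFDerivAt.comp x (g := Ψ.symm) d2.hasFDerivAt e1
  have e3 : defo Ψ χ l =ᶠ[𝓝 x] fun x => Ψ.symm (Ψ x + χ (Ψ x) • l) := by
    filter_upwards [Ψ.open_source.mem_nhds hx] with w hw
    simp [defo, hw]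
  rw [e3.fderiv_eq, e2.fderiv]
  ext1 v
  simp [ContinuousLinearMap.mul_apply, add_mul]

end

theorem dfa (hS : T_SUP) : T_DFA := by
  intro Ψ h0 h1 h2
  have a2 : AnalyticAt ℝ Ψ.symm 0 := (h2.contDiffAt (Ψ.open_target.mem_nhds h0)).analyticAt
  have a1 : AnalyticAt ℝ Ψ (Ψ.symm 0) :=
    (h1.contDiffAt (Ψ.open_source.mem_nhds (Ψ.map_target h0))).analyticAt
  have aM : AnalyticAt ℝ (fun z => fderiv ℝ Ψ.symm z) 0 := a2.fderiv
  have aN : AnalyticAt ℝ (fun z => fderiv ℝ Ψ (Ψ.symm z)) 0 :=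
    AnalyticAt.fun_comp (g := fderiv ℝ Ψ) (f := Ψ.symm) (x := 0) a1.fderiv a2
  have aD : AnalyticAt ℝ (fun z => (fderiv ℝ Ψ.symm z).det) 0 :=
    AnalyticAt.fun_comp (g := fun A : EE => A.det) (det_analytic _) aM
  have hd0 : (fderiv ℝ Ψ.symm 0).det ≠ 0 := by
    intro h
    have h3 := (inv1 Ψ h1 h2 h0).1
    have h4 := congrArg ContinuousLinearMap.det h3
    rw [det_mul, h, mul_zero] at h4
    have : (1 : EE).det = 1 := LinearMap.det_id
    rw [this] at h4
    exact zero_ne_one h4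
  have aA : AnalyticAt ℝ (fun z => |(fderiv ℝ Ψ.symm z).det|) 0 := by
    rcases lt_or_gt_of_ne hd0 with h | h
    · refine (aD.neg).congr ?_
      filter_upwards [aD.continuousAt.eventually (gt_mem_nhds h)] with z hz
      rw [abs_of_neg hz]
      rfl
    · refine aD.congr ?_
      filter_upwards [aD.continuousAt.eventually (lt_mem_nhds h)] with z hz
      rw [abs_of_pos hz]
  obtain ⟨r1, hr1, S1⟩ := hS EE _ aM
  obtain ⟨r2, hr2, S2⟩ := hS EE _ aN
  obtain ⟨r3, hr3, S3⟩ := hS ℝ _ aA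
  obtain ⟨δ, hδ, hδt⟩ := Metric.isOpen_iff.1 Ψ.open_target 0 h0
  obtain ⟨r, hr, hr1', hr2', hr3', hδ'⟩ : ∃ r : ℝ, 0 < r ∧ r ≤ r1 ∧ r ≤ r2 ∧ r ≤ r3 ∧ r ≤ δ := by
    refine ⟨min (min r1 r2) (min r3 δ), by positivity, ?_, ?_, ?_, ?_⟩
    · exact (min_le_left _ _).trans (min_le_left _ _)
    · exact (min_le_left _ _).trans (min_le_right _ _)
    · exact (min_le_right _ _).trans (min_le_left _ _)
    · exact (min_le_right _ _).trans (min_le_right _ _)
  have hbt : ball (0 : E) r ⊆ Ψ.target := (ball_subset_ball hδ').trans hδt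
  refine ⟨r / 2, by positivity, (closedBall_subset_ball (by linarith)).trans hbt, ?_⟩
  intro R χ hR hRr hχ _
  set K : Set E := Ψ.symm '' closedBall 0 R with hK
  have hRt : closedBall (0 : E) R ⊆ Ψ.target := (closedBall_subset_ball (by linarith)).trans hbt
  have hKs : ∀ x ∈ K, x ∈ Ψ.source ∧ ‖Ψ x‖ ≤ R := by
    rintro x ⟨z, hz, rfl⟩
    refine ⟨Ψ.map_target (hRt hz), ?_⟩
    rw [Ψ.right_inv (hRt hz)]
    simpa using hz
  let y : C(K, E) := ⟨fun x => Ψ x, Ψ.continuousOn.comp_continuous continuous_subtype_val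
    (fun x => (hKs x x.2).1)⟩
  have hyn : ‖y‖ ≤ R := (ContinuousMap.norm_le _ hR.le).2 fun x => (hKs x x.2).2
  obtain ⟨N1, aN1, eN1⟩ := S1 K
  obtain ⟨N2, aN2, eN2⟩ := S2 K
  obtain ⟨N3, aN3, eN3⟩ := S3 K
  -- the linear maps
  have hχ' : Continuous fun z => fderiv ℝ χ z := hχ.sm.continuous_fderiv (by simp)
  let Tl : E →ₗ[ℝ] C(K, E) :=
    { toFun := fun l => ⟨fun x => χ (y x) • l, by
        exact (hχ.sm.continuous.comp y.continuous).smul continuous_const⟩
      map_add' := fun a b => by ext1 x; simp [smul_add]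
      map_smul' := fun c a => by
        ext1 x
        simp only [ContinuousMap.coe_mk, ContinuousMap.smul_apply, RingHom.id_apply]
        rw [smul_comm] }
  let nl : E →ₗ[ℝ] C(K, EE) :=
    { toFun := fun l => ⟨fun x => (fderiv ℝ χ (y x)).smulRight l, by
        have h3 : Continuous fun x : K => fderiv ℝ χ (y x) := hχ'.comp y.continuous
        exact (ContinuousLinearMap.smulRightL ℝ E E).continuous₂.comp (h3.prodMk continuous_const)⟩
      map_add' := fun a b => by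
        ext1 x
        ext1 v
        simp [smul_add]
      map_smul' := fun c a => by
        ext1 x
        ext1 v
        simp [smul_comm c] }
  let Φl : E →ₗ[ℝ] C(K, ℝ) :=
    { toFun := fun l => ⟨fun x => fderiv ℝ χ (y x) l, by
        have h3 : Continuous fun x : K => fderiv ℝ χ (y x) := hχ'.comp y.continuous
        exact h3.clm_apply continuous_const⟩
      map_add' := fun a b => by ext1 x; simp
      map_smul' := fun c a => by ext1 x; simp }
  let T := LinearMap.toContinuousLinearMap Tl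
  let n : E →L[ℝ] C(K, EE) := LinearMap.toContinuousLinearMap nl
  let Φ := LinearMap.toContinuousLinearMap Φl
  let ι : C(K, ℝ) →L[ℝ] C(K, EE) :=
    (ContinuousLinearMap.toSpanSingleton ℝ (1 : EE)).compLeftContinuous ℝ K
  let adj : C(K, EE) →L[ℝ] C(K, EE) := adjL.compLeftContinuous ℝ K
  have hιx : ∀ g x, ι g x = g x • (1 : EE) := fun g x => rfl
  have hadjx : ∀ g x, adj g x = adjL (g x) := fun g x => rfl
  let c : E → C(K, E) := fun l => y + T l
  have hcx : ∀ l x, c l x = Ψ x + χ (Ψ x) • l := fun l x => rfl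
  have hc0 : c 0 = y := by simp [c]
  have ac : AnalyticAt ℝ c 0 := analyticAt_const.add (T.analyticAt 0)
  have hy1 : c 0 ∈ ball (0 : C(K, E)) r := by
    rw [hc0, mem_ball_zero_iff]
    linarith
  have aC1 : AnalyticAt ℝ (fun l => N1 (c l)) 0 :=
    AnalyticAt.fun_comp (g := N1) (f := c) (aN1 _ (ball_subset_ball hr1' hy1)) ac
  have aC2 : AnalyticAt ℝ (fun l => N2 (c l)) 0 :=
    AnalyticAt.fun_comp (g := N2) (f := c) (aN2 _ (ball_subset_ball hr2' hy1)) ac
  have aC3 : AnalyticAt ℝ (fun l => N3 (c l)) 0 :=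
    AnalyticAt.fun_comp (g := N3) (f := c) (aN3 _ (ball_subset_ball hr3' hy1)) ac
  have an0 : AnalyticAt ℝ (fun l : E => n l) 0 := by
    have h5 := ContinuousLinearMap.analyticAt (𝕜 := ℝ) (E := E) (F := C(K, EE)) n 0
    exact h5
  have an : AnalyticAt ℝ (fun l : E => (1 : C(K, EE)) + n l) 0 :=
    analyticAt_const.fun_add an0
  have h1n : (1 : C(K, EE)) + n 0 = 1 := by rw [map_zero, add_zero]
  have aI : AnalyticAt ℝ (fun l => Ring.inverse ((1 : C(K, EE)) + n l)) 0 := invA an h1n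
  -- the density at l = 0
  let g0 : C(K, ℝ) := ⟨fun x => |(N2 y x).det|, by
    exact (ContinuousLinearMap.continuous_det.comp (N2 y).continuous).abs⟩
  let Di : E → C(K, EE) := fun l => N1 y * Ring.inverse (1 + n l) * N2 (c l)
  have aDi : AnalyticAt ℝ Di 0 := by
    have m0 : AnalyticAt ℝ (fun _ : E => N1 y) 0 := analyticAt_const
    exact mulA (mulA m0 aI) aC2
  let Γ : E → C(K, EE) := fun l => ι (N3 (c l)) * ι (1 + Φ l) * ι g0 * (Di l * adj (Di l))
  have aΓ : AnalyticAt ℝ Γ 0 := by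
    have b1 : AnalyticAt ℝ (fun l => ι (N3 (c l))) 0 := compR ι aC3
    have b0 : AnalyticAt ℝ (fun l : E => Φ l) 0 := by
      have h5 := ContinuousLinearMap.analyticAt (𝕜 := ℝ) (E := E) (F := C(K, ℝ)) Φ 0
      exact h5
    have b2 : AnalyticAt ℝ (fun l => ι (1 + Φ l)) 0 :=
      compR ι (f := fun l => 1 + Φ l) (analyticAt_const.fun_add b0)
    have b3 : AnalyticAt ℝ (fun l => adj (Di l)) 0 := compE adj aDi
    have m0 : AnalyticAt ℝ (fun _ : E => ι g0) 0 := analyticAt_const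
    exact mulA (mulA (mulA b1 b2) m0) (mulA aDi b3)
  have hyt : ∀ x : K, Ψ x ∈ Ψ.target := fun x => Ψ.map_source (hKs x x.2).1
  have hyb : ∀ f : C(K, E), f ∈ ball (0 : C(K, E)) r → ∀ x, f x ∈ Ψ.target := by
    intro f hf x
    refine hbt ?_
    rw [mem_ball_zero_iff] at hf ⊢
    exact (f.norm_coe_le_norm x).trans_lt hf
  have hyr : y ∈ ball (0 : C(K, E)) r := hc0 ▸ hy1
  have eN1' : ∀ x, N1 y x = fderiv ℝ Ψ.symm (Ψ x) := fun x => eN1 y (ball_subset_ball hr1' hyr) x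
  have eN2' : ∀ x : K, N2 y x = fderiv ℝ Ψ x := by
    intro x
    have h3 := eN2 y (ball_subset_ball hr2' hyr) x
    have h4 : Ψ.symm (y x) = x := Ψ.left_inv (hKs x x.2).1
    rw [h4] at h3
    exact h3
  -- key identity
  have key : ∀ l : E, c l ∈ ball (0 : C(K, E)) r →
      (1 + n l) * Ring.inverse (1 + n l) = (1 : C(K, EE)) → ‖Φ l‖ ≤ 1 → ∀ x : K,
      fderiv ℝ (defo Ψ χ l) x * Di l x = 1 ∧
      Γ l x = |(fderiv ℝ (defo Ψ χ l) x).det| • (Di l x * adjL (Di l x)) := by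
    intro l hl hu hΦ x
    have hct := hyb (c l) hl x
    have e1 := fderiv_defo Ψ h1 h2 hχ.sm (l := l) (hKs x x.2).1 (hcx l x ▸ hct)
    have e2 : fderiv ℝ Ψ.symm (Ψ x + χ (Ψ x) • l) = N1 (c l) x :=
      (eN1 (c l) (ball_subset_ball hr1' hl) x).symm
    have e3 : fderiv ℝ Ψ (Ψ.symm (c l x)) = N2 (c l) x :=
      (eN2 (c l) (ball_subset_ball hr2' hl) x).symm
    have e4 : (1 + (fderiv ℝ χ (Ψ x)).smulRight l : EE) = (1 + n l : C(K, EE)) x := rfl
    have i1 := inv1 Ψ h1 h2 hct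
    rw [e3] at i1
    have e2' : fderiv ℝ Ψ.symm (c l x) = N1 (c l) x :=
      (eN1 (c l) (ball_subset_ball hr1' hl) x).symm
    rw [e2'] at i1
    have i2 := inv1 Ψ h1 h2 (hyt x)
    rw [Ψ.left_inv (hKs x x.2).1, ← eN1' x, ← eN2' x] at i2
    have i3 : (1 + n l : C(K, EE)) x * (Ring.inverse (1 + n l)) x = 1 := by
      exact congrArg (fun f : C(K, EE) => f x) hu
    have hD : fderiv ℝ (defo Ψ χ l) x = N1 (c l) x * (1 + n l : C(K, EE)) x * N2 y x := by
      rw [e1, e2, e4, eN2' x]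
    have hDi : Di l x = N1 y x * (Ring.inverse (1 + n l)) x * N2 (c l) x := rfl
    constructor
    · rw [hD, hDi]
      calc _ = N1 (c l) x * ((1 + n l : C(K, EE)) x * ((N2 y x * N1 y x) *
            (Ring.inverse (1 + n l)) x)) * N2 (c l) x := by
            simp only [mul_assoc]
        _ = 1 := by rw [i2.1, one_mul, i3, mul_one, i1.2]
    · have h3 : |(fderiv ℝ (defo Ψ χ l) x).det| = N3 (c l) x * (1 + Φ l : C(K, ℝ)) x * g0 x := by
        rw [hD, det_mul, det_mul, abs_mul, abs_mul, ← e4, det_one_add]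
        have h5 : (1 + Φ l : C(K, ℝ)) x = 1 + fderiv ℝ χ (Ψ x) l := rfl
        have h6 : |fderiv ℝ χ (Ψ x) l| ≤ 1 := by
          have := (Φ l).norm_coe_le_norm x
          exact this.trans hΦ
        have h7 : 0 ≤ 1 + fderiv ℝ χ (Ψ x) l := by
          have := (abs_le.1 h6).1
          linarith
        rw [h5, abs_of_nonneg h7, eN3 (c l) (ball_subset_ball hr3' hl) x, e2']
        rfl
      rw [h3]
      show ι (N3 (c l)) x * ι (1 + Φ l) x * ι g0 x * (Di l x * adj (Di l) x) = _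
      rw [hιx, hιx, hιx, hadjx]
      exact sm3 _ _ _ _
  -- value at zero
  have hΓ0 : Γ 0 = 1 := by
    ext1 x
    have hu0 : (1 + n 0) * Ring.inverse (1 + n 0) = (1 : C(K, EE)) := by
      rw [h1n, Ring.inverse_one, mul_one]
    obtain ⟨k1, k2⟩ := key 0 hy1 hu0 (by simp) x
    have hD0 : fderiv ℝ (defo Ψ χ 0) x = 1 := by
      have e1 := fderiv_defo Ψ h1 h2 hχ.sm (l := 0) (hKs x x.2).1 (by simpa using hyt x)
      have i2 := inv1 Ψ h1 h2 (hyt x)
      rw [Ψ.left_inv (hKs x x.2).1] at i2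
      rw [e1]
      have e5 : (fderiv ℝ χ (Ψ x)).smulRight (0 : E) = (0 : EE) := by
        ext1 v; simp
      rw [e5, add_zero, mul_one, smul_zero, add_zero]
      exact i2.2
    rw [hD0, one_mul] at k1
    rw [k2, hD0, k1, adjL_apply]
    have h5 : ContinuousLinearMap.adjoint (1 : EE) = 1 := ContinuousLinearMap.adjoint_id
    have : (1 : EE).det = 1 := LinearMap.det_id
    rw [h5, this]
    simp
  -- choose the radius
  have ev1 : ∀ᶠ l in 𝓝 (0 : E), AnalyticAt ℝ Γ l := aΓ.eventually_analyticAt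
  have ev2 : ∀ᶠ l in 𝓝 (0 : E), ‖Γ l - 1‖ ≤ 1 / 2 := normA aΓ.continuousAt hΓ0
  have ev3 : ∀ᶠ l in 𝓝 (0 : E), c l ∈ ball (0 : C(K, E)) r :=
    ac.continuousAt.eventually (isOpen_ball.mem_nhds hy1)
  have ev4 : ∀ᶠ l in 𝓝 (0 : E), (1 + n l) * Ring.inverse (1 + n l) = (1 : C(K, EE)) :=
    unitA an.continuousAt h1n
  have ev5 : ∀ᶠ l in 𝓝 (0 : E), ‖Φ l‖ ≤ 1 := by
    have h3 : ContinuousAt (fun l => ‖Φ l‖) 0 := Φ.continuous.norm.continuousAt
    have h4 : ‖Φ 0‖ < 1 := by simp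
    filter_upwards [h3.eventually (gt_mem_nhds h4)] with l hl
    exact le_of_lt hl
  obtain ⟨ρ, hρ, hball⟩ := Metric.eventually_nhds_iff_ball.1
    (ev1.and (ev2.and (ev3.and (ev4.and ev5))))
  refine ⟨ρ, Γ, hρ, fun l hl => (hball l hl).1, fun l hl => (hball l hl).2.1, ?_⟩
  intro l hl x a b
  obtain ⟨-, -, q3, q4, q5⟩ := hball l hl
  obtain ⟨k1, k2⟩ := key l q3 q4 q5 x
  rw [k2]
  exact ident k1 _ a b

end Pool.Agent.H35.ICA.D
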