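import Pool.Agent.H94.AC.Targets

open MeasureTheory Set Filter Topology Metric
open scoped ENNReal NNReal ContDiff RealInnerProductSpace

namespace Pool.Agent.H35.ICA.P

open Pool.Agent.H94.IC Pool.Agent.H94.AC

/-- the setting: a diffeomorphism supported in `K` and preserving `S` -/
structure Df (Ω S K : Set E) (T T' : E → E) : Prop where
  hΩ : IsOpen Ω
  hS : IsClosed S
  hS0 : volume S = 0
  hK : IsCompact K
  hKΩ : K ⊆ Ω
  sT : ContDiff ℝ ∞ T
  sT' : ContDiff ℝ ∞ T'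
  inv : ∀ x, T (T' x) = x ∧ T' (T x) = x
  off : ∀ x ∉ K, T x = x
  pS : ∀ x, T x ∈ S ↔ x ∈ S

variable {Ω S K : Set E} {T T' : E → E}

theorem Df.inj (d : Df Ω S K T T') : Function.Injective T := by
  intro x y h
  rw [← (d.inv x).2, ← (d.inv y).2, h]

theorem Df.symm (d : Df Ω S K T T') : Df Ω S K T' T := by
  refine ⟨d.hΩ, d.hS, d.hS0, d.hK, d.hKΩ, d.sT', d.sT, fun x => ⟨(d.inv x).2, (d.inv x).1⟩, ?_, ?_⟩
  · intro x hx
    have := d.off x hx
    conv_lhs => rw [← this]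
    exact (d.inv x).2
  · intro x
    have := d.pS (T' x)
    rw [(d.inv x).1] at this
    exact this.symm

theorem Df.mapsK (d : Df Ω S K T T') {x : E} (hx : x ∈ K) : T x ∈ K := by
  by_contra h
  have h1 := d.off _ h
  have h2 := d.inj h1
  rw [h2] at h
  exact h hx

theorem Df.imK (d : Df Ω S K T T') : T '' K = K := by
  ext y
  constructor
  · rintro ⟨x, hx, rfl⟩
    exact d.mapsK hx
  · intro hy
    exact ⟨T' y, d.symm.mapsK hy, (d.inv y).1⟩

theorem Df.mapsO (d : Df Ω S K T T') : MapsTo T (Ω \ S) (Ω \ S) := by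
  intro x hx
  refine ⟨?_, fun h => hx.2 ((d.pS x).1 h)⟩
  by_cases h : x ∈ K
  · exact d.hKΩ (d.mapsK h)
  · rw [d.off x h]
    exact hx.1

theorem Df.hasF (d : Df Ω S K T T') (x : E) : HasFDerivAt T (fderiv ℝ T x) x :=
  (d.sT.differentiable (by simp) x).hasFDerivAt

theorem Df.smooth (d : Df Ω S K T T') {f : E → ℝ} (hf : ContDiffOn ℝ ∞ f (Ω \ S)) :
    ContDiffOn ℝ ∞ (fun x => f (T x)) (Ω \ S) :=
  hf.comp d.sT.contDiffOn d.mapsO

theorem diff_of {f : E → ℝ} (hΩ : IsOpen Ω) (hS : IsClosed S)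
    (h : ContDiffOn ℝ ∞ f (Ω \ S)) {x : E} (hx : x ∈ Ω) (hxS : x ∉ S) : DifferentiableAt ℝ f x :=
  ((h.contDiffAt ((hΩ.sdiff hS).mem_nhds ⟨hx, hxS⟩)).differentiableAt (by simp))

theorem gr_comp {f : E → ℝ} {T : E → E} {x : E} {A : E →L[ℝ] E} (hT : HasFDerivAt T A x)
    (hf : DifferentiableAt ℝ f (T x)) :
    gr (fun z => f (T z)) x = ContinuousLinearMap.adjoint A (gr f (T x)) := by
  have h1 : HasFDerivAt (fun z => f (T z)) ((fderiv ℝ f (T x)).comp A) x :=
    hf.hasFDerivAt.comp x hT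
  refine ext_inner_right ℝ fun v => ?_
  rw [ContinuousLinearMap.adjoint_inner_left]
  simp only [gr, gradient, h1.fderiv, InnerProductSpace.toDual_symm_apply]
  rfl

theorem Df.measle (d : Df Ω S K T T') : ∃ C : ℝ≥0∞, C ≠ ⊤ ∧
    Measure.map T (volume.restrict K) ≤ C • volume.restrict K := by
  have hc : Continuous fun y => (fderiv ℝ T' y).det :=
    ContinuousLinearMap.continuous_det.comp (d.sT'.continuous_fderiv (by simp))
  obtain ⟨C, hC⟩ := d.hK.exists_bound_of_continuousOn hc.continuousOn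
  refine ⟨ENNReal.ofReal C, ENNReal.ofReal_ne_top, ?_⟩
  refine Measure.le_iff.2 fun A hA => ?_
  rw [Measure.map_apply d.sT.continuous.measurable hA,
    Measure.restrict_apply (d.sT.continuous.measurable hA), Measure.smul_apply,
    Measure.restrict_apply hA]
  have h1 : T ⁻¹' A ∩ K = T' '' (A ∩ K) := by
    ext x
    constructor
    · rintro ⟨hx, hxK⟩
      exact ⟨T x, ⟨hx, d.mapsK hxK⟩, (d.inv x).2⟩
    · rintro ⟨y, ⟨hy, hyK⟩, rfl⟩
      refine ⟨?_, d.symm.mapsK hyK⟩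
      show T (T' y) ∈ A
      rw [(d.inv y).1]
      exact hy
  rw [h1, ← lintegral_abs_det_fderiv_eq_addHaar_image volume (hA.inter d.hK.measurableSet)
    (fun x _ => (d.symm.hasF x).hasFDerivWithinAt) d.symm.inj.injOn]
  rw [smul_eq_mul, ← setLIntegral_const]
  refine setLIntegral_mono measurable_const fun x hx => ?_
  refine ENNReal.ofReal_le_ofReal ?_
  have := hC x hx.2
  rwa [Real.norm_eq_abs] at this

theorem Df.memLp (d : Df Ω S K T T') {F : Type} [NormedAddCommGroup F] {g : E → F}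
    (hg : MemLp g 2 (volume.restrict K)) : MemLp (fun x => g (T x)) 2 (volume.restrict K) := by
  obtain ⟨C, hC, hle⟩ := d.measle
  have h1 : MemLp g 2 (Measure.map T (volume.restrict K)) :=
    (hg.smul_measure hC).mono_measure hle
  exact (memLp_map_measure_iff h1.1 d.sT.continuous.measurable.aemeasurable).1 h1

theorem Df.ae (d : Df Ω S K T T') : ∀ᵐ x ∂(volume.restrict K), x ∈ K ∧ x ∉ S := by
  have h1 : ∀ᵐ x ∂(volume.restrict K), x ∈ K := ae_restrict_mem d.hK.measurableSet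
  have h2 : ∀ᵐ x ∂(volume : Measure E), x ∉ S := measure_eq_zero_iff_ae_notMem.1 d.hS0
  filter_upwards [h1, ae_restrict_of_ae h2] with x hx hx2
  exact ⟨hx, hx2⟩

theorem Df.grT (d : Df Ω S K T T') {f : E → ℝ} (hf : ContDiffOn ℝ ∞ f (Ω \ S)) {x : E} (hx : x ∈ K)
    (hxS : x ∉ S) : gr (fun z => f (T z)) x = ContinuousLinearMap.adjoint (fderiv ℝ T x) (gr f (T x)) := by
  have := d.mapsO ⟨d.hKΩ hx, hxS⟩
  exact gr_comp (d.hasF x) (diff_of d.hΩ d.hS hf this.1 this.2)

theorem Df.memGr (d : Df Ω S K T T') {f : E → ℝ} (hf : ContDiffOn ℝ ∞ f (Ω \ S))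
    (hg : MemLp (gr f) 2 (volume.restrict K)) :
    MemLp (gr fun x => f (T x)) 2 (volume.restrict K) := by
  have hc : Continuous fun y => ContinuousLinearMap.adjoint (fderiv ℝ T y) :=
    ContinuousLinearMap.adjoint.continuous.comp (d.sT.continuous_fderiv (by simp))
  obtain ⟨C, hC⟩ := d.hK.exists_bound_of_continuousOn hc.continuousOn
  have h1 := d.memLp hg
  have h2 : MemLp (fun x => ContinuousLinearMap.adjoint (fderiv ℝ T x) (gr f (T x))) 2
      (volume.restrict K) := by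
    refine MemLp.of_le_mul (c := C) h1 ?_ ?_
    · exact (ContinuousLinearMap.id ℝ (E →L[ℝ] E)).aestronglyMeasurable_comp₂
        hc.aestronglyMeasurable h1.1
    · filter_upwards [d.ae] with x hx
      refine ((ContinuousLinearMap.adjoint (fderiv ℝ T x)).le_opNorm _).trans ?_
      exact mul_le_mul_of_nonneg_right (hC x hx.1) (norm_nonneg _)
  refine (memLp_congr_ae ?_).2 h2
  filter_upwards [d.ae] with x hx
  exact d.grT hf hx.1 hx.2

theorem mem_of_K {F : Type} [NormedAddCommGroup F] (hΩ : IsOpen Ω) (hK : IsCompact K) (hKΩ : K ⊆ Ω)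
    {g : E → F} (hg : MemLp g 2 (volume.restrict K)) (h0 : ∀ x ∈ Ω \ K, g x = 0) :
    MemLp g 2 (volume.restrict Ω) := by
  have h1 : MemLp (K.indicator g) 2 (volume.restrict Ω) := by
    rw [memLp_indicator_iff_restrict hK.measurableSet,
      Measure.restrict_restrict hK.measurableSet, inter_eq_self_of_subset_left hKΩ]
    exact hg
  refine (memLp_congr_ae ?_).2 h1
  filter_upwards [ae_restrict_mem hΩ.measurableSet] with x hx
  by_cases hxK : x ∈ K
  · rw [indicator_of_mem hxK]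
  · rw [indicator_of_notMem hxK, h0 x ⟨hx, hxK⟩]

theorem gr_zero_off (hΩ : IsOpen Ω) (hK : IsCompact K) {f : E → ℝ} (h0 : ∀ x ∈ Ω \ K, f x = 0) :
    ∀ x ∈ Ω \ K, gr f x = 0 := by
  intro x hx
  have h1 : f =ᶠ[𝓝 x] fun _ => (0 : ℝ) := by
    filter_upwards [(hΩ.sdiff hK.isClosed).mem_nhds hx] with y hy
    exact h0 y hy
  simp only [gr, gradient, h1.fderiv_eq]
  simp

theorem Df.tk (d : Df Ω S K T T') {φ : E → ℝ} (hφ : TK Ω S K φ) : TK Ω S K (fun x => φ (T x)) := by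
  have h0 : ∀ x ∈ Ω \ K, φ (T x) = 0 := by
    intro x hx
    rw [d.off x hx.2]
    exact hφ.out x hx
  refine ⟨d.smooth hφ.sm, ?_, ?_, h0⟩
  · exact mem_of_K d.hΩ d.hK d.hKΩ
      (d.memLp (hφ.l2.mono_measure (Measure.restrict_mono d.hKΩ le_rfl))) h0
  · exact mem_of_K d.hΩ d.hK d.hKΩ
      (d.memGr hφ.sm (hφ.g2.mono_measure (Measure.restrict_mono d.hKΩ le_rfl)))
      (gr_zero_off d.hΩ d.hK h0)

theorem pbe : T_PBE := by
  intro Ω S K h T T' hΩ hΩb hS hS0 hK hKΩ hW sT sT' hinv hoff hpS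
  have d : Df Ω S K T T' := ⟨hΩ, hS, hS0, hK, hKΩ, sT, sT', hinv, hoff, hpS⟩
  have hsm := hW.harm.1
  have hgK : MemLp (gr h) 2 (volume.restrict K) :=
    hW.g2.mono_measure (Measure.restrict_mono hKΩ le_rfl)
  have hlK : MemLp h 2 (volume.restrict K) :=
    hW.l2.mono_measure (Measure.restrict_mono hKΩ le_rfl)
  have h2 := d.memGr hsm hgK
  have h3 := d.smooth hsm
  refine ⟨?_, h2, h3, ?_⟩
  · have h0 : ∀ x ∈ Ω \ K, h (T x) - h x = 0 := by
      intro x hx
      rw [d.off x hx.2, sub_self]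
    refine ⟨h3.sub hsm, ?_, ?_, h0⟩
    · exact mem_of_K hΩ hK hKΩ ((d.memLp hlK).sub hlK) h0
    · refine mem_of_K hΩ hK hKΩ ?_ (gr_zero_off hΩ hK h0)
      refine (memLp_congr_ae ?_).2 (h2.sub hgK)
      filter_upwards [d.ae] with x hx
      have e1 := diff_of hΩ hS h3 (hKΩ hx.1) hx.2
      have e2 := diff_of hΩ hS hsm (hKΩ hx.1) hx.2
      simp only [gr, gradient, Pi.sub_apply]
      rw [fderiv_fun_sub e1 e2, map_sub]
  · intro φ M hφ hM
    set ψ : E → ℝ := fun x => φ (T' x) with hψ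
    have tψ : TK Ω S K ψ := d.symm.tk hφ
    have hw := hW.weak ψ K tψ.sm tψ.l2 tψ.g2 hK hKΩ tψ.out
    have hz := gr_zero_off hΩ hK tψ.out
    rw [setIntegral_eq_of_subset_of_forall_diff_eq_zero (f := fun x => ⟪gr h x, gr ψ x⟫)
      hΩ.measurableSet hKΩ (fun x hx => by
        show ⟪gr h x, gr ψ x⟫ = 0
        rw [hz x hx, inner_zero_right])] at hw
    have hcv := integral_image_eq_integral_abs_det_fderiv_smul volume hK.measurableSet
      (fun x _ => (d.hasF x).hasFDerivWithinAt) d.inj.injOn (fun x => ⟪gr h x, gr ψ x⟫)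
    rw [d.imK, hw] at hcv
    rw [hcv]
    refine integral_congr_ae ?_
    filter_upwards [d.ae] with x hx
    have e1 := d.grT hsm hx.1 hx.2
    have e2 := d.grT tψ.sm hx.1 hx.2
    have e3 : (fun z => ψ (T z)) = φ := by
      funext z
      simp only [hψ, (hinv z).2]
    rw [e3] at e2
    rw [e1, e2, hM x hx.1]
    rfl

end Pool.Agent.H35.ICA.P
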